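import Pool.Agent.H98.KS.Targets2

/-!
# MP_ff41bc_an, module G1z: complete sums modulo a prime, `b = 0`
-/

set_option autoImplicit false

open scoped BigOperators

noncomputable section

namespace Pool.Agent.H59.KS

open Pool.Agent.H98.KS

/-- the complete sum over `ZMod p` -/
def g1S (k p : ℕ) [NeZero p] (a : ZMod p) : ℂ := ∑ x : ZMod p, ZMod.stdAddChar (a * x ^ k)

lemma g1_ee (p : ℕ) [NeZero p] (j : ℤ) : ee ((j : ℝ) / p) = ZMod.stdAddChar (j : ZMod p) := by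
  rw [ZMod.stdAddChar_coe]
  unfold ee
  congr 1
  push_cast
  ring

lemma g1_GG (k p : ℕ) [NeZero p] (a : ℤ) : GG k a 0 p = (1 / (p : ℂ)) * g1S k p (a : ZMod p) := by
  unfold GG g1S
  congr 1
  refine Finset.sum_nbij' (fun r => (r : ZMod p)) (fun x => x.val) ?_ ?_ ?_ ?_ ?_
  · intro r _
    exact Finset.mem_univ _
  · intro x _
    exact Finset.mem_range.2 (ZMod.val_lt x)
  · intro r hr
    exact ZMod.val_cast_of_lt (Finset.mem_range.1 hr)
  · intro x _
    exact ZMod.natCast_zmod_val x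
  · intro r _
    rw [g1_ee]
    congr 1
    push_cast
    ring

lemma g1_roots (k p : ℕ) [Fact p.Prime] (hk : 1 ≤ k) (c : ZMod p) :
    (Finset.univ.filter fun x : ZMod p => x ^ k = c).card ≤ k := by
  have h1 : (Finset.univ.filter fun x : ZMod p => x ^ k = c) ⊆
      (Polynomial.nthRoots k c).toFinset := by
    intro x hx
    rw [Multiset.mem_toFinset, Polynomial.mem_nthRoots hk]
    exact (Finset.mem_filter.1 hx).2
  exact (Finset.card_le_card h1).trans
    ((Multiset.toFinset_card_le _).trans (Polynomial.card_nthRoots k c))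

lemma g1_sq (k p : ℕ) [Fact p.Prime] (a : ZMod p) :
    ((‖g1S k p a‖ ^ 2 : ℝ) : ℂ) =
      ∑ x : ZMod p, ∑ y : ZMod p, ZMod.stdAddChar (a * (x ^ k - y ^ k)) := by
  push_cast
  rw [← Complex.mul_conj']
  unfold g1S
  rw [map_sum, Finset.sum_mul_sum]
  refine Finset.sum_congr rfl fun x _ => Finset.sum_congr rfl fun y _ => ?_
  rw [← AddChar.map_neg_eq_conj, ← AddChar.map_add_eq_mul]
  congr 1
  ring

lemma g1_total (k p : ℕ) [Fact p.Prime] (hk : 1 ≤ k) :
    ∑ a : ZMod p, ‖g1S k p a‖ ^ 2 ≤ (k : ℝ) * p ^ 2 := by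
  have h1 : ((∑ a : ZMod p, ‖g1S k p a‖ ^ 2 : ℝ) : ℂ) =
      ((p * ∑ y : ZMod p, (Finset.univ.filter fun x : ZMod p => x ^ k = y ^ k).card : ℕ) : ℂ) := by
    rw [Complex.ofReal_sum]
    simp only [g1_sq]
    rw [Finset.sum_comm]
    have h2 : ∀ x : ZMod p, ∑ a : ZMod p, ∑ y : ZMod p,
        (ZMod.stdAddChar (a * (x ^ k - y ^ k)) : ℂ) =
        ∑ y : ZMod p, if x ^ k = y ^ k then (p : ℂ) else 0 := by
      intro x
      rw [Finset.sum_comm]
      refine Finset.sum_congr rfl fun y _ => ?_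
      rw [AddChar.sum_mulShift _ (ZMod.isPrimitive_stdAddChar p), ZMod.card]
      simp only [sub_eq_zero]
      push_cast
      rfl
    rw [Finset.sum_congr rfl fun x _ => h2 x, Finset.sum_comm]
    push_cast
    rw [Finset.mul_sum]
    refine Finset.sum_congr rfl fun y _ => ?_
    rw [Finset.card_filter]
    push_cast
    rw [Finset.mul_sum]
    refine Finset.sum_congr rfl fun x _ => ?_
    split_ifs <;> simp
  have h3 : (∑ a : ZMod p, ‖g1S k p a‖ ^ 2 : ℝ) =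
      ((p * ∑ y : ZMod p, (Finset.univ.filter fun x : ZMod p => x ^ k = y ^ k).card : ℕ) : ℝ) := by
    exact_mod_cast h1
  rw [h3]
  have h4 : ∑ y : ZMod p, (Finset.univ.filter fun x : ZMod p => x ^ k = y ^ k).card ≤ p * k := by
    refine (Finset.sum_le_card_nsmul _ _ k fun y _ => g1_roots k p hk _).trans ?_
    simp [ZMod.card]
  have h5 : ((p * ∑ y : ZMod p,
      (Finset.univ.filter fun x : ZMod p => x ^ k = y ^ k).card : ℕ) : ℝ) ≤
      ((p * (p * k) : ℕ) : ℝ) := by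
    exact_mod_cast Nat.mul_le_mul_left p h4
  refine h5.trans (le_of_eq ?_)
  push_cast
  ring

lemma g1_inv (k p : ℕ) [Fact p.Prime] (a u : ZMod p) (hu : u ≠ 0) :
    g1S k p (a * u ^ k) = g1S k p a := by
  unfold g1S
  refine Fintype.sum_equiv (Equiv.mulLeft₀ u hu) _ _ fun x => ?_
  congr 1
  simp only [Equiv.mulLeft₀_apply]
  ring

lemma g1_bound (k p : ℕ) [Fact p.Prime] (hk : 1 ≤ k) (a : ZMod p) (ha : a ≠ 0) :
    ((p : ℝ) - 1) * ‖g1S k p a‖ ^ 2 ≤ (k : ℝ) ^ 2 * p ^ 2 := by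
  have h1 : ∑ u ∈ (Finset.univ.erase (0 : ZMod p)), ‖g1S k p (a * u ^ k)‖ ^ 2 =
      ((p : ℝ) - 1) * ‖g1S k p a‖ ^ 2 := by
    rw [Finset.sum_congr rfl fun u hu => by rw [g1_inv k p a u (Finset.ne_of_mem_erase hu)]]
    rw [Finset.sum_const, Finset.card_erase_of_mem (Finset.mem_univ _), Finset.card_univ,
      ZMod.card, nsmul_eq_mul, Nat.cast_sub (Fact.out : p.Prime).one_le]
    push_cast
    rfl
  have h2 := Finset.sum_comp (s := Finset.univ.erase (0 : ZMod p))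
    (fun c : ZMod p => ‖g1S k p c‖ ^ 2) (fun u => a * u ^ k)
  rw [← h1, h2]
  have h3 : ∀ c : ZMod p,
      ((Finset.univ.erase (0 : ZMod p)).filter fun u => a * u ^ k = c).card ≤ k := by
    intro c
    refine (Finset.card_le_card ?_).trans (g1_roots k p hk (a⁻¹ * c))
    intro u hu
    rw [Finset.mem_filter] at hu ⊢
    refine ⟨Finset.mem_univ _, ?_⟩
    rw [← hu.2, ← mul_assoc, inv_mul_cancel₀ ha, one_mul]
  calc ∑ c ∈ (Finset.univ.erase (0 : ZMod p)).image (fun u => a * u ^ k),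
        ((Finset.univ.erase (0 : ZMod p)).filter fun u => a * u ^ k = c).card • ‖g1S k p c‖ ^ 2
      ≤ ∑ c ∈ (Finset.univ.erase (0 : ZMod p)).image (fun u => a * u ^ k),
        (k : ℝ) * ‖g1S k p c‖ ^ 2 := by
        refine Finset.sum_le_sum fun c _ => ?_
        rw [nsmul_eq_mul]
        refine mul_le_mul_of_nonneg_right ?_ (by positivity)
        exact_mod_cast h3 c
    _ ≤ ∑ c : ZMod p, (k : ℝ) * ‖g1S k p c‖ ^ 2 :=
        Finset.sum_le_sum_of_subset_of_nonneg (Finset.subset_univ _) fun c _ _ => by positivity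
    _ = (k : ℝ) * ∑ c : ZMod p, ‖g1S k p c‖ ^ 2 := by rw [Finset.mul_sum]
    _ ≤ (k : ℝ) * ((k : ℝ) * p ^ 2) :=
        mul_le_mul_of_nonneg_left (g1_total k p hk) (by positivity)
    _ = (k : ℝ) ^ 2 * p ^ 2 := by ring

theorem ks_G1z (hGE : T_GE) : T_G1z := by
  intro k p a b hk hp ha hb
  haveI : Fact p.Prime := ⟨hp⟩
  obtain ⟨v, rfl⟩ := hb
  have h1 : GG k a ((p : ℤ) * v) p = GG k a 0 p := by
    have := (hGE k p a 0 hp.one_le).2.1 0 v
    simpa using this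
  rw [h1, g1_GG]
  have ha' : (a : ZMod p) ≠ 0 := by
    rwa [Ne, ZMod.intCast_zmod_eq_zero_iff_dvd]
  have h2 := g1_bound k p hk (a : ZMod p) ha'
  have hp2 : (2 : ℝ) ≤ p := by exact_mod_cast hp.two_le
  have hp0 : (0 : ℝ) < p := by linarith
  rw [norm_mul, norm_div, norm_one, Complex.norm_natCast]
  set S : ℝ := ‖g1S k p (a : ZMod p)‖ with hS
  have hS0 : 0 ≤ S := norm_nonneg _
  have hsq : 0 < Real.sqrt p := Real.sqrt_pos.2 hp0
  have hss : Real.sqrt p ^ 2 = p := Real.sq_sqrt hp0.le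
  have h3 : S ^ 2 ≤ 2 * k ^ 2 * p := by
    have h4 : (p : ℝ) / 2 * S ^ 2 ≤ ((p : ℝ) - 1) * S ^ 2 :=
      mul_le_mul_of_nonneg_right (by linarith) (by positivity)
    have h5 : (p : ℝ) * S ^ 2 ≤ p * (2 * k ^ 2 * p) := by nlinarith
    exact le_of_mul_le_mul_left h5 hp0
  have h6 : S ≤ 2 * k * Real.sqrt p := by
    refine abs_le_of_sq_le_sq' ?_ (by positivity) |>.2
    rw [mul_pow, mul_pow, hss]
    nlinarith [sq_nonneg (k : ℝ), mul_nonneg (sq_nonneg (k : ℝ)) hp0.le]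
  rw [le_div_iff₀ hsq]
  calc 1 / (p : ℝ) * S * Real.sqrt p ≤ 1 / (p : ℝ) * (2 * k * Real.sqrt p) * Real.sqrt p := by
        gcongr
    _ = 2 * k * (Real.sqrt p ^ 2) / p := by ring
    _ = 2 * k := by rw [hss]; field_simp

end Pool.Agent.H59.KS
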