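import Pool.Agent.H98.KS.Targets5

/-!
# MP_ff41bc_an, module Z1: the endpoint bound
-/

set_option autoImplicit false

open scoped BigOperators ENNReal NNReal

noncomputable section

namespace Pool.Agent.H59.KS

open Pool.Agent.H98.KS MeasureTheory Set

section levels

variable {α : Type} (f : α → ℂ) (θ : ℝ)

/-- the integral in the Lorentz norm -/
def z1L : ℝ≥0∞ := ∫⁻ t in Set.Ioi (0 : ℝ), (distr (fun x => ‖f x‖ₑ) (ENNReal.ofReal t)) ^ θ

lemma z1_distr_anti {s t : ℝ≥0∞} (h : s ≤ t) (g : α → ℝ≥0∞) : distr g t ≤ distr g s := by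
  unfold distr
  exact_mod_cast Set.encard_le_encard fun x (hx : t < g x) => lt_of_le_of_lt h hx

lemma z1_fin (hθ : 0 < θ) (hL : z1L f θ ≠ ∞) {s : ℝ} (hs : 0 < s) :
    {x | ENNReal.ofReal s < ‖f x‖ₑ}.Finite := by
  by_contra hinf
  have h1 : distr (fun x => ‖f x‖ₑ) (ENNReal.ofReal s) = ∞ := by
    unfold distr
    rw [Set.encard_eq_top (Set.not_finite.1 hinf)]
    rfl
  apply hL
  rw [eq_top_iff]
  have h2 : ∫⁻ t in Set.Ioc (0 : ℝ) s, (distr (fun x => ‖f x‖ₑ) (ENNReal.ofReal t)) ^ θ =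
      ∫⁻ t in Set.Ioc (0 : ℝ) s, (∞ : ℝ≥0∞) := by
    refine setLIntegral_congr_fun measurableSet_Ioc fun t ht => ?_
    have h3 : distr (fun x => ‖f x‖ₑ) (ENNReal.ofReal t) = ∞ :=
      eq_top_iff.2 (h1 ▸ z1_distr_anti (ENNReal.ofReal_le_ofReal ht.2) _)
    simp only [h3]
    exact ENNReal.top_rpow_of_pos hθ
  calc (∞ : ℝ≥0∞) = ∫⁻ t in Set.Ioc (0 : ℝ) s, (∞ : ℝ≥0∞) := by
        rw [setLIntegral_const, Real.volume_Ioc, sub_zero, ENNReal.top_mul]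
        simpa using hs
    _ = ∫⁻ t in Set.Ioc (0 : ℝ) s, (distr (fun x => ‖f x‖ₑ) (ENNReal.ofReal t)) ^ θ := h2.symm
    _ ≤ z1L f θ := lintegral_mono_set fun t ht => ht.1

lemma z1_sum (E : ℤ → Finset α)
    (hE : ∀ y j, y ∈ E j ↔ (2 : ℝ) ^ j < ‖f y‖ ∧ ‖f y‖ ≤ (2 : ℝ) ^ (j + 1)) (hθ : 0 < θ) :
    ∑' j : ℤ, ENNReal.ofReal ((2 : ℝ) ^ (j + 1)) * ((E j).card : ℝ≥0∞) ^ θ ≤ 4 * z1L f θ := by
  set I : ℤ → Set ℝ := fun j => Set.Ioc ((2 : ℝ) ^ (j - 1)) ((2 : ℝ) ^ j) with hI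
  have hcard : ∀ j : ℤ, ∀ s ∈ I j, ((E j).card : ℝ≥0∞) ≤
      distr (fun x => ‖f x‖ₑ) (ENNReal.ofReal s) := by
    intro j s hs
    unfold distr
    have h1 : ((E j : Set α)).encard ≤ {x | ENNReal.ofReal s < ‖f x‖ₑ}.encard := by
      refine Set.encard_le_encard fun y hy => ?_
      have h2 := (hE y j).1 hy
      show ENNReal.ofReal s < ‖f y‖ₑ
      rw [← ofReal_norm]
      have h3 : s < ‖f y‖ := lt_of_le_of_lt hs.2 h2.1
      have h4 : 0 < ‖f y‖ := lt_of_le_of_lt (by positivity) h2.1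
      exact (ENNReal.ofReal_lt_ofReal_iff h4).2 h3
    rw [Set.encard_coe_eq_coe_finsetCard] at h1
    exact_mod_cast h1
  have hone : ∀ j : ℤ, ENNReal.ofReal ((2 : ℝ) ^ (j + 1)) * ((E j).card : ℝ≥0∞) ^ θ ≤
      4 * ∫⁻ t in I j, (distr (fun x => ‖f x‖ₑ) (ENNReal.ofReal t)) ^ θ := by
    intro j
    have h1 : ENNReal.ofReal ((2 : ℝ) ^ (j - 1)) * ((E j).card : ℝ≥0∞) ^ θ ≤
        ∫⁻ t in I j, (distr (fun x => ‖f x‖ₑ) (ENNReal.ofReal t)) ^ θ := by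
      calc ENNReal.ofReal ((2 : ℝ) ^ (j - 1)) * ((E j).card : ℝ≥0∞) ^ θ
          = ∫⁻ t in I j, ((E j).card : ℝ≥0∞) ^ θ := by
            rw [setLIntegral_const, Real.volume_Ioc, mul_comm]
            congr 2
            have : (2 : ℝ) ^ j = 2 * 2 ^ (j - 1) := by
              rw [← zpow_one_add₀ (by norm_num : (2 : ℝ) ≠ 0)]
              congr 1
              ring
            rw [this]
            ring
        _ ≤ ∫⁻ t in I j, (distr (fun x => ‖f x‖ₑ) (ENNReal.ofReal t)) ^ θ :=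
            setLIntegral_mono' measurableSet_Ioc fun s hs =>
              ENNReal.rpow_le_rpow (hcard j s hs) hθ.le
    have h2 : ENNReal.ofReal ((2 : ℝ) ^ (j + 1)) = 4 * ENNReal.ofReal ((2 : ℝ) ^ (j - 1)) := by
      have h3 : (2 : ℝ) ^ (j + 1) = 4 * 2 ^ (j - 1) := by
        have : (4 : ℝ) = 2 ^ (2 : ℤ) := by norm_num
        rw [this, ← zpow_add₀ (by norm_num : (2 : ℝ) ≠ 0)]
        congr 1
        ring
      rw [h3, ENNReal.ofReal_mul (by norm_num)]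
      congr 1
      norm_num
    rw [h2, mul_assoc]
    exact mul_le_mul_right h1 _
  refine (ENNReal.tsum_le_tsum hone).trans ?_
  rw [ENNReal.tsum_mul_left]
  refine mul_le_mul_right ?_ _
  rw [← lintegral_iUnion (fun j => measurableSet_Ioc)]
  · refine lintegral_mono_set fun t ht => ?_
    obtain ⟨j, hj⟩ := Set.mem_iUnion.1 ht
    exact lt_trans (by positivity) hj.1
  · have hmono : ∀ i j : ℤ, i < j → Disjoint (I i) (I j) := by
      intro i j hij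
      refine Set.disjoint_left.2 fun t h1 h2 => ?_
      have h3 : (2 : ℝ) ^ i ≤ 2 ^ (j - 1) := zpow_le_zpow_right₀ (by norm_num) (by omega)
      exact absurd (lt_of_lt_of_le h2.1 (h1.2.trans h3)) (lt_irrefl _)
    intro i j hij
    rcases lt_or_gt_of_ne hij with h | h
    · exact hmono i j h
    · exact (hmono j i h).symm

lemma z1_distr (g : α → ℝ≥0∞) (hθ : 0 < θ) (t : ℝ≥0) (ht : 0 < t) (K : ℝ≥0∞)
    (h : ∀ X : Finset α, (∀ x ∈ X, (t : ℝ≥0∞) < g x) → (t : ℝ≥0∞) * (X.card : ℝ≥0∞) ^ θ ≤ K) :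
    (t : ℝ≥0∞) * (distr g t) ^ θ ≤ K := by
  have ht0 : (t : ℝ≥0∞) ≠ 0 := by exact_mod_cast ht.ne'
  by_cases hfin : {x | (t : ℝ≥0∞) < g x}.Finite
  · have h1 := h hfin.toFinset fun x hx => hfin.mem_toFinset.1 hx
    unfold distr
    rw [hfin.encard_eq_coe_toFinset_card]
    exact_mod_cast h1
  · have hinf : {x | (t : ℝ≥0∞) < g x}.Infinite := hfin
    have hK : K = ∞ := by
      by_contra hK
      have h2 : ∀ n : ℕ, (n : ℝ≥0∞) ≤ (K / t) ^ (1 / θ) := by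
        intro n
        obtain ⟨X, hX, hn⟩ := hinf.exists_subset_card_eq n
        have h3 := h X fun x hx => hX hx
        rw [hn] at h3
        have h4 : (n : ℝ≥0∞) ^ θ ≤ K / t := by
          rw [ENNReal.le_div_iff_mul_le (Or.inl ht0) (Or.inl ENNReal.coe_ne_top), mul_comm]
          exact h3
        calc (n : ℝ≥0∞) = ((n : ℝ≥0∞) ^ θ) ^ (1 / θ) := by
              rw [← ENNReal.rpow_mul, mul_one_div_cancel hθ.ne', ENNReal.rpow_one]
          _ ≤ (K / t) ^ (1 / θ) := ENNReal.rpow_le_rpow h4 (by positivity)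
      have h5 : (K / t) ^ (1 / θ) ≠ ∞ :=
        ENNReal.rpow_ne_top_of_nonneg (by positivity) (ENNReal.div_ne_top hK ht0)
      obtain ⟨n, hn⟩ := ENNReal.exists_nat_gt h5
      exact absurd (h2 n) (not_le.2 hn)
    rw [hK]
    exact le_top

end levels

theorem ks_Z1 (hZA : T_ZA) (hZB : T_ZB) : T_Z1 := by
  intro k d C hk hkd hC
  obtain ⟨C1, hC1⟩ := hZA k d C hk hkd hC
  have hd0 : (0 : ℝ) < d := by exact_mod_cast (by omega : 0 < d)
  have hkd' : (k : ℝ) < d := by exact_mod_cast hkd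
  have hk0 : (0 : ℝ) < k := by exact_mod_cast (by omega : 0 < k)
  set θ : ℝ := ((d : ℝ) - k) / d with hθdef
  have hθ : 0 < θ := div_pos (by linarith) hd0
  have hθ1 : θ < 1 := by
    rw [hθdef, div_lt_one hd0]
    linarith
  have hp : 1 / ((d : ℝ) / ((d : ℝ) - k)) = θ := one_div_div _ _
  have hp1 : (1 : ℝ≥0∞) ≤ ENNReal.ofReal ((d : ℝ) / ((d : ℝ) - k)) := by
    rw [ENNReal.one_le_ofReal, one_le_div (by linarith)]
    linarith
  refine ⟨4 * C1 + 1, fun f => ?_⟩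
  have hlor : z1L f θ ≤ lorentzNorm ((d : ℝ) / ((d : ℝ) - k)) f := by
    unfold lorentzNorm
    rw [hp]
    calc z1L f θ = 1 * z1L f θ := (one_mul _).symm
      _ ≤ _ := mul_le_mul_left hp1 _
  unfold weakNorm
  refine iSup₂_le fun t ht => ?_
  rw [hp]
  by_cases hL : z1L f θ = ∞
  · have h1 : lorentzNorm ((d : ℝ) / ((d : ℝ) - k)) f = ∞ := eq_top_iff.2 (hL ▸ hlor)
    rw [h1, ENNReal.mul_top (by simp)]
    exact le_top
  -- the level sets
  have hfin : ∀ j : ℤ, {y | (2 : ℝ) ^ j < ‖f y‖ ∧ ‖f y‖ ≤ (2 : ℝ) ^ (j + 1)}.Finite := by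
    intro j
    refine (z1_fin f θ hθ hL (s := (2 : ℝ) ^ j) (by positivity)).subset fun y hy => ?_
    show ENNReal.ofReal _ < ‖f y‖ₑ
    rw [← ofReal_norm]
    exact (ENNReal.ofReal_lt_ofReal_iff (lt_trans (by positivity) hy.1)).2 hy.1
  set E : ℤ → Finset (Fin d → ℤ) := fun j => (hfin j).toFinset with hEdef
  have hE : ∀ y j, y ∈ E j ↔ (2 : ℝ) ^ j < ‖f y‖ ∧ ‖f y‖ ≤ (2 : ℝ) ^ (j + 1) := by
    intro y j
    exact (hfin j).mem_toFinset
  have hW := z1_sum f θ E hE hθ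
  have hmain : (t : ℝ≥0∞) * (distr (maxOp k d f) t) ^ θ ≤ C1 * (4 * z1L f θ) := by
    refine z1_distr θ _ hθ t ht _ fun X hX => ?_
    by_cases hX0 : X.card = 0
    · rw [hX0]
      simp [ENNReal.zero_rpow_of_pos hθ]
    have hXc : (X.card : ℝ≥0∞) ≠ 0 := by exact_mod_cast hX0
    have hXt : (X.card : ℝ≥0∞) ≠ ∞ := ENNReal.natCast_ne_top _
    have h1 : (t : ℝ≥0∞) * X.card ≤ ∑ x ∈ X, maxOp k d f x := by
      calc (t : ℝ≥0∞) * X.card = ∑ x ∈ X, (t : ℝ≥0∞) := by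
            rw [Finset.sum_const, nsmul_eq_mul, mul_comm]
        _ ≤ _ := Finset.sum_le_sum fun x hx => (hX x hx).le
    have h2 : ∑ x ∈ X, maxOp k d f x ≤ C1 * (X.card : ℝ≥0∞) ^ (1 - θ) *
        ∑' j : ℤ, ENNReal.ofReal ((2 : ℝ) ^ (j + 1)) * ((E j).card : ℝ≥0∞) ^ θ := by
      calc ∑ x ∈ X, maxOp k d f x
          ≤ ∑ x ∈ X, ∑' j : ℤ, ENNReal.ofReal ((2 : ℝ) ^ (j + 1)) *
            maxOp k d (Set.indicator (E j : Set (Fin d → ℤ)) (fun _ => 1)) x :=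
            Finset.sum_le_sum fun x _ => hZB k d f E x (by omega) hE
        _ = ∑' j : ℤ, ∑ x ∈ X, ENNReal.ofReal ((2 : ℝ) ^ (j + 1)) *
            maxOp k d (Set.indicator (E j : Set (Fin d → ℤ)) (fun _ => 1)) x :=
            (Summable.tsum_finsetSum fun x _ => ENNReal.summable).symm
        _ ≤ ∑' j : ℤ, (C1 * (X.card : ℝ≥0∞) ^ (1 - θ)) *
            (ENNReal.ofReal ((2 : ℝ) ^ (j + 1)) * ((E j).card : ℝ≥0∞) ^ θ) := by
            refine ENNReal.tsum_le_tsum fun j => ?_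
            rw [← Finset.mul_sum]
            refine (mul_le_mul_right (hC1 (E j) X) _).trans (le_of_eq ?_)
            ring
        _ = _ := ENNReal.tsum_mul_left
    have h3 : (t : ℝ≥0∞) * X.card ≤ C1 * (X.card : ℝ≥0∞) ^ (1 - θ) * (4 * z1L f θ) :=
      h1.trans (h2.trans (mul_le_mul_right hW _))
    have h4 : (X.card : ℝ≥0∞) = (X.card : ℝ≥0∞) ^ (1 - θ) * (X.card : ℝ≥0∞) ^ θ := by
      rw [← ENNReal.rpow_add _ _ hXc hXt, sub_add_cancel, ENNReal.rpow_one]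
    have h5 : (X.card : ℝ≥0∞) ^ (1 - θ) * ((t : ℝ≥0∞) * (X.card : ℝ≥0∞) ^ θ) ≤
        (X.card : ℝ≥0∞) ^ (1 - θ) * (C1 * (4 * z1L f θ)) := by
      calc (X.card : ℝ≥0∞) ^ (1 - θ) * ((t : ℝ≥0∞) * (X.card : ℝ≥0∞) ^ θ)
          = (t : ℝ≥0∞) * ((X.card : ℝ≥0∞) ^ (1 - θ) * (X.card : ℝ≥0∞) ^ θ) := by ring
        _ = (t : ℝ≥0∞) * X.card := by rw [← h4]
        _ ≤ _ := h3
        _ = _ := by ring
    refine (ENNReal.mul_le_mul_iff_right ?_ ?_).1 h5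
    · exact (ENNReal.rpow_pos (pos_iff_ne_zero.2 hXc) hXt).ne'
    · exact ENNReal.rpow_ne_top_of_nonneg (by linarith) hXt
  calc (t : ℝ≥0∞) * (distr (maxOp k d f) t) ^ θ ≤ C1 * (4 * z1L f θ) := hmain
    _ = (4 * C1) * z1L f θ := by ring
    _ ≤ ((4 * C1 + 1 : ℝ≥0) : ℝ≥0∞) * lorentzNorm ((d : ℝ) / ((d : ℝ) - k)) f := by
        refine mul_le_mul' ?_ hlor
        push_cast
        exact le_self_add

end Pool.Agent.H59.KS
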